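import Pool.Agent.SZT.StmtsC

set_option autoImplicit false

namespace Pool.Agent.Helper92_SZT

open Polynomial H58Q Pool.Agent.SZT

section

variable {K : Type} [Field K]

theorem gen1 (f A B : K[X]) : (⟨A, 0⟩ : Q K f) ∈ MI f A B := Ideal.subset_span (by simp)

theorem gen2 (f A B : K[X]) : (⟨-B, 1⟩ : Q K f) ∈ MI f A B := Ideal.subset_span (by simp)

theorem prod_le (hmik : MikStatement) (f A B A' B' B'' : K[X]) (hd : A * A' ∣ B'' ^ 2 - f)
    (h1 : A ∣ B'' - B) (h2 : A' ∣ B'' - B') :
    MI f A B * MI f A' B' ≤ MI f (A * A') B'' := by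
  have e : MI f A B * MI f A' B' = Ideal.span {(⟨A, 0⟩ : Q K f) * ⟨A', 0⟩,
      (⟨A, 0⟩ : Q K f) * ⟨-B', 1⟩, (⟨-B, 1⟩ : Q K f) * ⟨A', 0⟩,
      (⟨-B, 1⟩ : Q K f) * ⟨-B', 1⟩} := by
    rw [MI, MI, Ideal.span_pair_mul_span_pair]
  rw [e, Ideal.span_le]
  intro z hz
  simp only [Set.mem_insert_iff, Set.mem_singleton_iff] at hz
  rcases hz with h | h | h | h
  · have hz' : z = ⟨A * A', 0⟩ := by
      rw [h]
      ext <;> simp
    rw [hz']
    exact (hmik K f (A * A') B'' _ _ hd).mpr (by simp)
  · have hz' : z = ⟨-(A * B'), A⟩ := by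
      rw [h]
      ext <;> simp
    rw [hz']
    refine (hmik K f (A * A') B'' _ _ hd).mpr ?_
    have : -(A * B') + A * B'' = A * (B'' - B') := by ring
    rw [this]
    exact mul_dvd_mul_left A h2
  · have hz' : z = ⟨-(B * A'), A'⟩ := by
      rw [h]
      ext <;> simp
    rw [hz']
    refine (hmik K f (A * A') B'' _ _ hd).mpr ?_
    have : -(B * A') + A' * B'' = (B'' - B) * A' := by ring
    rw [this]
    exact mul_dvd_mul_right h1 A'
  · have hz' : z = ⟨B * B' + f, -B - B'⟩ := by
      rw [h]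
      refine QuadraticAlgebra.ext ?_ ?_
      · simp
      · simp only [QuadraticAlgebra.im_mul]
        ring
    rw [hz']
    refine (hmik K f (A * A') B'' _ _ hd).mpr ?_
    have : B * B' + f + (-B - B') * B'' = (B'' - B) * (B'' - B') - (B'' ^ 2 - f) := by ring
    rw [this]
    exact dvd_sub (mul_dvd_mul h1 h2) hd

theorem MI_one (f : K[X]) (B : K[X]) : MI f 1 B = ⊤ := by
  rw [Ideal.eq_top_iff_one]
  have h := gen1 f 1 B
  have h1 : (⟨1, 0⟩ : Q K f) = 1 := QuadraticAlgebra.ext rfl rfl
  rwa [h1] at h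

theorem mum_zero {f A B : K[X]} (h : Mum f A B) (hd : A.natDegree = 0) : A = 1 ∧ B = 0 := by
  have hA : A = 1 := eq_one_of_monic_natDegree_zero h.monic hd
  refine ⟨hA, ?_⟩
  have h1 := h.deg
  rw [hA, degree_one, Nat.WithBot.lt_zero_iff, degree_eq_bot] at h1
  exact h1

theorem mum_one {f A B : K[X]} (h : Mum f A B) (hd : A.natDegree = 1) :
    ∃ a b : K, A = X - C a ∧ B = C b ∧ b ^ 2 = f.eval a := by
  have hA : A = X - C (-A.coeff 0) := by
    rw [C_neg, sub_neg_eq_add]
    exact h.monic.eq_X_add_C hd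
  have hB : B = C (B.coeff 0) := by
    apply eq_C_of_degree_le_zero
    rw [← Nat.WithBot.lt_one_iff_le_zero]
    have h1 := h.deg
    rw [hA, degree_X_sub_C] at h1
    exact h1
  refine ⟨-A.coeff 0, B.coeff 0, hA, hB, ?_⟩
  have h1 := h.dvd
  rw [hA, dvd_iff_isRoot, IsRoot.def, hB] at h1
  simp only [eval_sub, eval_pow, eval_C] at h1
  have h2 := sub_eq_zero.mp h1
  simpa using h2

theorem taylor2 (f : K[X]) (a : K) :
    (X - C a) ^ 2 ∣ f - C (f.eval a) - C (f.derivative.eval a) * (X - C a) := by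
  have h1 : X - C a ∣ f - C (f.eval a) - C (f.derivative.eval a) * (X - C a) := by
    rw [dvd_iff_isRoot, IsRoot.def]
    simp
  obtain ⟨q, hq⟩ := h1
  have h2 : q.eval a = 0 := by
    have h3 := congrArg (fun p => (derivative p).eval a) hq
    simp only [derivative_sub, derivative_mul, derivative_X, derivative_C, eval_sub, eval_mul,
      eval_add, eval_X, eval_C, eval_one, eval_zero] at h3
    have h4 : q.eval a = 0 := by
      have h5 : f.derivative.eval a - 0 - (0 * (a - a) + f.derivative.eval a * (1 - 0))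
          = 0 := by ring
      rw [h5] at h3
      have h6 : (1 - 0) * q.eval a + (a - a) * q.derivative.eval a = q.eval a := by ring
      rw [h6] at h3
      exact h3.symm
    exact h4
  have h3 : X - C a ∣ q := by
    rw [dvd_iff_isRoot, IsRoot.def]
    exact h2
  obtain ⟨r, hr⟩ := h3
  exact ⟨r, by rw [hq, hr]; ring⟩

end

theorem pro (hmik : MikStatement) : ProStatement := by
  intro K _ f A B A' B' h2 hM hM' hd hd' hne
  rcases Nat.eq_zero_or_pos A.natDegree with h0 | h0
  · obtain ⟨hA, hB⟩ := mum_zero hM h0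
    subst hA hB
    refine ⟨B', ?_, one_dvd _, by simp, ?_⟩
    · rw [one_mul]
      exact hM'
    · rw [MI_one, Ideal.top_mul, one_mul]
  rcases Nat.eq_zero_or_pos A'.natDegree with h0' | h0'
  · obtain ⟨hA', hB'⟩ := mum_zero hM' h0'
    subst hA' hB'
    refine ⟨B, ?_, by simp, one_dvd _, ?_⟩
    · rw [mul_one]
      exact hM
    · rw [MI_one, Ideal.mul_top, mul_one]
  obtain ⟨a, b, hA, hB, hb⟩ := mum_one hM (by omega)
  obtain ⟨a', b', hA', hB', hb'⟩ := mum_one hM' (by omega)
  have hmon : (A * A').Monic := hM.monic.mul hM'.monic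
  have hdegAA : (A * A').degree = 2 := by
    rw [degree_mul, hA, hA', degree_X_sub_C, degree_X_sub_C]
    rfl
  have hlin : ∀ u w : K, (C u + C w * (X - C a)).degree < (A * A').degree := by
    intro u w
    rw [hdegAA]
    have h3 : (C u + C w * (X - C a)).degree ≤ 1 := by compute_degree
    exact lt_of_le_of_lt h3 (by norm_num)
  by_cases haa : a = a'
  · subst haa
    have hAA : A = A' := by rw [hA, hA']
    have hbb : b' = b ∧ b ≠ 0 := by
      have h3 : b' ^ 2 = b ^ 2 := by rw [hb, hb']
      rcases sq_eq_sq_iff_eq_or_eq_neg.mp h3 with h4 | h4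
      · refine ⟨h4, ?_⟩
        intro h5
        apply hne
        refine ⟨hAA, ?_⟩
        rw [hB, hB', h4, h5]
        simp
      · exfalso
        apply hne
        refine ⟨hAA, ?_⟩
        rw [hB, hB', h4]
        simp
    obtain ⟨hb1, hb0⟩ := hbb
    rw [hb1] at hB'
    obtain ⟨e, he⟩ : ∃ e : K, e = (2 * b)⁻¹ := ⟨_, rfl⟩
    have hee : e * (2 * b) = 1 := by
      rw [he]
      exact inv_mul_cancel₀ (mul_ne_zero h2 hb0)
    have heC : C e * (2 * C b) = (1 : K[X]) := by
      have h3 : (2 : K[X]) = C (2 : K) := (map_ofNat C 2).symm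
      rw [h3, ← C_mul, ← C_mul, hee, C_1]
    obtain ⟨q, hq⟩ := taylor2 f a
    obtain ⟨s, hs⟩ : ∃ s : K, s = f.derivative.eval a := ⟨_, rfl⟩
    rw [← hb, ← hs] at hq
    have hbC : C (b ^ 2) = C b ^ 2 := C_pow
    rw [hbC] at hq
    have hdv : A * A' ∣ (C b + C (s * e) * (X - C a)) ^ 2 - f := by
      refine ⟨C (s * e) ^ 2 - q, ?_⟩
      rw [hA, hA', C_mul]
      linear_combination (-1 : K[X]) * hq + C s * (X - C a) * heC
    refine ⟨C b + C (s * e) * (X - C a), ⟨hmon, hlin _ _, hdv⟩, ?_, ?_, ?_⟩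
    · rw [hA, hB]
      exact ⟨C (s * e), by ring⟩
    · rw [hA', hB']
      exact ⟨C (s * e), by ring⟩
    · refine le_antisymm (prod_le hmik f A B A' B' _ hdv ?_ ?_) ?_
      · rw [hA, hB]
        exact ⟨C (s * e), by ring⟩
      · rw [hA', hB']
        exact ⟨C (s * e), by ring⟩
      · have m1 := Ideal.mul_mem_mul (gen1 f A B) (gen1 f A' B')
        have m2 := Ideal.mul_mem_mul (gen2 f A B) (gen2 f A' B')
        rw [MI, Ideal.span_le]
        intro z hz
        simp only [Set.mem_insert_iff, Set.mem_singleton_iff] at hz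
        rcases hz with h | h
        · have hz' : z = (⟨A, 0⟩ : Q K f) * ⟨A', 0⟩ := by
            rw [h]
            ext <;> simp
          rw [hz']
          exact m1
        · have hz' : z = (⟨-C e, 0⟩ : Q K f) * ((⟨-B, 1⟩ : Q K f) * ⟨-B', 1⟩
              - (⟨q, 0⟩ : Q K f) * ((⟨A, 0⟩ : Q K f) * ⟨A', 0⟩)) := by
            rw [h]
            refine QuadraticAlgebra.ext ?_ ?_
            · simp only [QuadraticAlgebra.re_mul, QuadraticAlgebra.re_sub,
                QuadraticAlgebra.im_mul, QuadraticAlgebra.im_sub]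
              rw [hA, hA', hB, hB', C_mul]
              linear_combination C e * hq + C b * heC
            · simp only [QuadraticAlgebra.re_mul, QuadraticAlgebra.re_sub,
                QuadraticAlgebra.im_mul, QuadraticAlgebra.im_sub]
              rw [hB, hB']
              linear_combination (-1 : K[X]) * heC
          rw [hz']
          exact Ideal.mul_mem_left _ _ (Ideal.sub_mem _ m2 (Ideal.mul_mem_left _ _ m1))
  · obtain ⟨e, he⟩ : ∃ e : K, e = (a' - a)⁻¹ := ⟨_, rfl⟩
    have hne' : a' - a ≠ 0 := sub_ne_zero.mpr (Ne.symm haa)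
    have hee : e * (a' - a) = 1 := by
      rw [he]
      exact inv_mul_cancel₀ hne'
    have heC : C e * (C a' - C a) = (1 : K[X]) := by
      rw [← C_sub, ← C_mul, hee, C_1]
    have hd1 : A ∣ (C b + C ((b' - b) * e) * (X - C a)) - B := by
      rw [hA, hB]
      exact ⟨C ((b' - b) * e), by ring⟩
    have hd2 : A' ∣ (C b + C ((b' - b) * e) * (X - C a)) - B' := by
      rw [hA', hB', dvd_iff_isRoot, IsRoot.def]
      simp only [eval_sub, eval_add, eval_mul, eval_C, eval_X]
      linear_combination (b' - b) * hee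
    have hdv : A * A' ∣ (C b + C ((b' - b) * e) * (X - C a)) ^ 2 - f := by
      have hcop : IsCoprime A A' := by
        rw [hA, hA']
        refine ⟨C e, -C e, ?_⟩
        linear_combination heC
      refine hcop.mul_dvd ?_ ?_
      · rw [hA, dvd_iff_isRoot, IsRoot.def]
        simp only [eval_sub, eval_add, eval_mul, eval_C, eval_X, eval_pow]
        rw [← hb]
        ring
      · rw [hA', dvd_iff_isRoot, IsRoot.def]
        simp only [eval_sub, eval_add, eval_mul, eval_C, eval_X, eval_pow]
        rw [← hb']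
        have h3 : b + (b' - b) * e * (a' - a) = b' := by linear_combination (b' - b) * hee
        rw [h3]
        ring
    refine ⟨C b + C ((b' - b) * e) * (X - C a), ⟨hmon, hlin _ _, hdv⟩, hd1, hd2, ?_⟩
    refine le_antisymm (prod_le hmik f A B A' B' _ hdv hd1 hd2) ?_
    have m1 := Ideal.mul_mem_mul (gen1 f A B) (gen1 f A' B')
    rw [MI, Ideal.span_le]
    intro z hz
    simp only [Set.mem_insert_iff, Set.mem_singleton_iff] at hz
    rcases hz with h | h
    · have hz' : z = (⟨A, 0⟩ : Q K f) * ⟨A', 0⟩ := by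
        rw [h]
        ext <;> simp
      rw [hz']
      exact m1
    · have hzI : z ∈ MI f A B := by
        rw [h]
        refine (hmik K f A B _ _ hM.dvd).mpr ?_
        obtain ⟨r, hr⟩ := hd1
        exact ⟨-r, by linear_combination (-1 : K[X]) * hr⟩
      have hzI' : z ∈ MI f A' B' := by
        rw [h]
        refine (hmik K f A' B' _ _ hM'.dvd).mpr ?_
        obtain ⟨r, hr⟩ := hd2
        exact ⟨-r, by linear_combination (-1 : K[X]) * hr⟩
      have k1 := Ideal.mul_mem_mul (gen1 f A B) hzI'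
      have k2 := Ideal.mul_mem_mul hzI (gen1 f A' B')
      have hz' : z = (⟨C e, 0⟩ : Q K f) * ((⟨A, 0⟩ : Q K f) * z - z * (⟨A', 0⟩ : Q K f)) := by
        refine QuadraticAlgebra.ext ?_ ?_
        · simp only [QuadraticAlgebra.re_mul, QuadraticAlgebra.re_sub,
            QuadraticAlgebra.im_mul, QuadraticAlgebra.im_sub]
          rw [hA, hA']
          linear_combination (-1 : K[X]) * z.re * heC
        · simp only [QuadraticAlgebra.re_mul, QuadraticAlgebra.re_sub,
            QuadraticAlgebra.im_mul, QuadraticAlgebra.im_sub]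
          rw [hA, hA']
          linear_combination (-1 : K[X]) * z.im * heC
      rw [hz']
      exact Ideal.mul_mem_left _ _ (Ideal.sub_mem _ k1 k2)

end Pool.Agent.Helper92_SZT
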